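import Pool.Agent.Run7.h891.Slices

/-! Q1 of MP_a45bfb_lc (are the families of rayless graphs closed under minor-twins with Borel rank
slices well-quasi-ordered?) has a positive answer if and only if all families of rayless graphs
closed under minor-twins have Borel rank slices, if and only if the countable rayless graphs are
well-quasi-ordered, equivalently better-quasi-ordered, and otherwise there is a perfect antichain.

The definitions are in `Pool/Agent/Run7/h891/Defs.lean`, `Defs2.lean`, `Defs3.lean`,
`Defs5.lean`. -/

set_option autoImplicit false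

open Ordinal Cardinal

namespace Pool.Agent.Results.MP_a45bfb_lc.SlicesIffBqo

open Run7.h891

theorem result :
    [∀ C : Set (SimpleGraph ℕ), (∀ G ∈ C, Rayless G) → TwinClosed C →
        (∀ α < ω₁, BorelFamily (RankSlice C α)) → WqoFamily C,
      ∀ C : Set (SimpleGraph ℕ), (∀ G ∈ C, Rayless G) → TwinClosed C →
        ∀ α < ω₁, BorelFamily (RankSlice C α),
      ∀ C : Set (SimpleGraph ℕ), (∀ G ∈ C, Rayless G) → WqoFamily C,
      WellQuasiOrdered MinorLE,
      BetterQuasiOrdered MinorLE,
      ∀ α < ω₁, CountablyManyTwinClasses α,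
      ¬ ∃ Φ : (ℕ → Bool) → SimpleGraph ℕ, @Continuous _ _ _ graphTopology Φ ∧
        (∀ t, Rayless (Φ t)) ∧ ∀ t t', t ≠ t' → ¬ IsMinor (Φ t) (Φ t')].TFAE :=
  slices_tfae

end Pool.Agent.Results.MP_a45bfb_lc.SlicesIffBqo
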